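import Pool.Agent.H44.FB.Basics
import Pool.Agent.H58.SF.PW

/-!
# The fibres, board `fbm_modules`, row PPK: the structure of the fibres does not construct `K₃`
-/

set_option autoImplicit false

namespace Pool.Agent.H35.FB

open Pool.Agent.H68.BP Pool.Agent.H58.SF Pool.Agent.H53.NR
open Pool.Agent.H53.GC (arP relP strOn sigOf)
open Pool.Agent.H53.GR (Ps Dm)
open Pool.Agent.H57.AR (tp ty Ty)
open Pool.Agent.H57.EQ (Cx)
open Pool.Agent.H57.SO (fib sigF SF)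
open Pool.Agent.H57.LH (SS vs c0 Blind NCB Cor Prs tfL SyL)
open Pool.Agent.H44.KR Pool.Agent.H44.FB
open Function Classical

section

variable {V P B₀ J : Type} {ρ σ : Sig} {𝔸 : Str σ V} {𝔹 : Str ρ V}

/-- Relations of `𝔸` or the full relation. -/
theorem relP_map (m : ℕ) (u : P → B₀ → V) (w : B₀ → V)
    (hd : ∀ (l : Fin σ.m) (z : Fin (σ.ar l) → B₀), (∀ p, 𝔸 l (fun i => u p (z i))) →
      𝔸 l (fun i => w (z i))) (s : Option (Fin σ.m)) (z : Fin (arP σ m s) → B₀)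
    (h : ∀ p, relP 𝔸 m s (fun i => u p (z i))) : relP 𝔸 m s (fun i => w (z i)) := by
  cases s with
  | none => trivial
  | some l => exact hd l z h

/-- Maps which preserve the types, the inequalities of elements with types not in `B` and the
relations of `𝔸` preserve the relations of the fibres. -/
theorem holds_map [Nonempty P] (m : ℕ) (B : Set (Fin ρ.m → Prop)) (u : P → B₀ → V)
    (w : B₀ → V) (ha : ∀ b b', (∀ p, u p b = u p b') → w b = w b')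
    (hb : ∀ b s, (∀ p, ty 𝔹 (u p b) = s) → ty 𝔹 (w b) = s)
    (hc : ∀ b b' s, (∀ p, ty 𝔹 (u p b) = s ∧ ty 𝔹 (u p b') = s ∧ u p b ≠ u p b') → s ∉ B →
      w b ≠ w b')
    (hd : ∀ (l : Fin σ.m) (z : Fin (σ.ar l) → B₀), (∀ p, 𝔸 l (fun i => u p (z i))) →
      𝔸 l (fun i => w (z i)))
    (a : Atom (sigF (SS 𝔹) σ m) B₀) (h : ∀ p, a.Holds (fbI 𝔸 𝔹 m B) (u p)) :
    a.Holds (fbI 𝔸 𝔹 m B) w := by
  cases a with
  | eq b b' => exact ha b b' h
  | rel i z =>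
    have h' : ∀ p, 1 ≤ (sigF (SS 𝔹) σ m).ar i ∧
        (∀ a, ty 𝔹 (u p (z a)) = tyI 𝔹 σ m i a) ∧
        (∀ a b, u p (z a) = u p (z b) → a = b ∨ tyI 𝔹 σ m i a ∈ B) ∧
        relP 𝔸 m (sy 𝔹 σ m i).1 (fun a => u p (z ((sy 𝔹 σ m i).2.2.1 a))) := h
    obtain ⟨p0⟩ := ‹Nonempty P›
    have hty : ∀ a, ty 𝔹 (w (z a)) = tyI 𝔹 σ m i a := fun a => hb _ _ fun p => (h' p).2.1 a
    refine ⟨(h' p0).1, hty, ?_, ?_⟩
    · intro a b hab
      by_contra hcon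
      have hne : a ≠ b := fun he => hcon (Or.inl he)
      have hnB : tyI 𝔹 σ m i a ∉ B := fun he => hcon (Or.inr he)
      have hab' : w (z a) = w (z b) := hab
      have htt : tyI 𝔹 σ m i b = tyI 𝔹 σ m i a := by
        rw [← hty a, ← hty b, hab']
      refine hc (z a) (z b) (tyI 𝔹 σ m i a) (fun p => ⟨(h' p).2.1 a, ?_, ?_⟩) hnB hab'
      · rw [← htt]
        exact (h' p).2.1 b
      · intro he
        rcases (h' p).2.2.1 a b he with h1 | h1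
        · exact hne h1
        · exact hnB h1
    · exact relP_map m u w hd (sy 𝔹 σ m i).1 (fun a => z ((sy 𝔹 σ m i).2.2.1 a))
        fun p => (h' p).2.2.2

/-- The values of local maps are definable. -/
theorem pp_loc [Finite P] [Finite J] [Nonempty V] (𝔸 : Str σ V) (U : Finset (P → V)) {k : ℕ}
    (ε : J ≃ Fin k) (xl xr : J → P → V) (hl : ∀ j, xl j ∈ U) (hr : ∀ j, xr j ∈ U) :
    PPDefinable 𝔸 {z : Fin k ⊕ Fin k → V | ∃ F : (P → V) → V, LocP 𝔸 U F ∧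
      (∀ j, z (Sum.inl (ε j)) = F (xl j)) ∧ ∀ j, z (Sum.inr (ε j)) = F (xr j)} := by
  classical
  let Y : Type := {x : P → V // x ∈ U}
  let Q : Type := {lz : Σ l : Fin σ.m, (Fin (σ.ar l) → Y) //
    ∀ p, 𝔸 lz.1 (fun i => (lz.2 i).1 p)}
  let Φ : Set (Atom σ ((Fin k ⊕ Fin k) ⊕ Y)) :=
    Set.range (fun q : Q =>
      (Atom.rel q.1.1 (fun i => Sum.inr (q.1.2 i)) : Atom σ ((Fin k ⊕ Fin k) ⊕ Y))) ∪
    (Set.range (fun j : J =>
      (Atom.eq (Sum.inl (Sum.inl (ε j))) (Sum.inr ⟨xl j, hl j⟩) :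
        Atom σ ((Fin k ⊕ Fin k) ⊕ Y))) ∪
      Set.range (fun j : J =>
      (Atom.eq (Sum.inl (Sum.inr (ε j))) (Sum.inr ⟨xr j, hr j⟩) :
        Atom σ ((Fin k ⊕ Fin k) ⊕ Y))))
  have hΦ : Φ.Finite :=
    (Set.finite_range _).union ((Set.finite_range _).union (Set.finite_range _))
  have h1 := ppDefinable_of_finite (𝔸 := 𝔸) Φ hΦ
  have h2 : {z : Fin k ⊕ Fin k → V | ∃ F : (P → V) → V, LocP 𝔸 U F ∧
      (∀ j, z (Sum.inl (ε j)) = F (xl j)) ∧ ∀ j, z (Sum.inr (ε j)) = F (xr j)} =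
      {x : Fin k ⊕ Fin k → V | ∃ y : Y → V, ∀ a ∈ Φ, a.Holds 𝔸 (Sum.elim x y)} := by
    ext z
    constructor
    · rintro ⟨F, hF, hzl, hzr⟩
      refine ⟨fun x => F x.1, ?_⟩
      rintro a (ha | ha | ha)
      · obtain ⟨q, rfl⟩ := ha
        exact hF q.1.1 (fun i => (q.1.2 i).1) (fun i => (q.1.2 i).2) q.2
      · obtain ⟨j, rfl⟩ := ha
        exact hzl j
      · obtain ⟨j, rfl⟩ := ha
        exact hzr j
    · rintro ⟨y, hy⟩
      have hF : ∀ x (hx : x ∈ U), (if hx : x ∈ U then y ⟨x, hx⟩ else Classical.arbitrary V) =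
          y ⟨x, hx⟩ := fun x hx => dif_pos hx
      refine ⟨fun x => if hx : x ∈ U then y ⟨x, hx⟩ else Classical.arbitrary V, ?_, ?_, ?_⟩
      · intro l w hw hp
        have h3 : (fun i => if hx : w i ∈ U then y ⟨w i, hx⟩ else Classical.arbitrary V) =
            fun i => y ⟨w i, hw i⟩ := funext fun i => hF _ (hw i)
        show 𝔸 l (fun i => if hx : w i ∈ U then y ⟨w i, hx⟩ else Classical.arbitrary V)
        rw [h3]
        exact hy _ (Or.inl ⟨⟨⟨l, fun i => ⟨w i, hw i⟩⟩, hp⟩, rfl⟩)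
      · intro j
        exact (hy _ (Or.inr (Or.inl ⟨j, rfl⟩)) : z (Sum.inl (ε j)) = y ⟨xl j, hl j⟩).trans
          (hF _ (hl j)).symm
      · intro j
        exact (hy _ (Or.inr (Or.inr ⟨j, rfl⟩)) : z (Sum.inr (ε j)) = y ⟨xr j, hr j⟩).trans
          (hF _ (hr j)).symm
  rw [h2]
  exact h1

end

/-- the pairs of different colours -/
abbrev PP : Type := {ab : Fin 3 × Fin 3 // ab.1 ≠ ab.2}

instance : Nonempty PP := ⟨⟨(0, 1), by decide⟩⟩

theorem pf_PPK : T_PPK := by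
  intro V σ ρ 𝔸 𝔹 hB hT hFin hInj hInv hN hK m hcon
  apply hK
  have hV : Nonempty V := hB.ne
  obtain ⟨n, E, hn, ⟨q, φ, hφ⟩, ⟨t, ht⟩, ⟨c, hc⟩⟩ := hcon
  -- the witnesses
  have hy : ∀ p : PP, ∃ y : Fin q → V, ∀ a ∈ φ, a.Holds (fbI 𝔸 𝔹 m (Bl 𝔸 𝔹))
      (Sum.elim (Sum.elim (t p.1.1) (t p.1.2)) y) := fun p =>
    (hφ (Sum.elim (t p.1.1) (t p.1.2))).1 (ht p.1.1 p.1.2 p.2)
  choose y hy using hy
  obtain ⟨u, hu⟩ : ∃ u : PP → (Fin n ⊕ Fin n) ⊕ Fin q → V,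
      u = fun p => Sum.elim (Sum.elim (t p.1.1) (t p.1.2)) (y p) := ⟨_, rfl⟩
  have huφ : ∀ p, ∀ a ∈ φ, a.Holds (fbI 𝔸 𝔹 m (Bl 𝔸 𝔹)) (u p) := by
    intro p a ha
    rw [hu]
    exact hy p a ha
  -- the injective map
  obtain ⟨X₀, hX₀⟩ : ∃ X₀ : Finset V, ∀ p b, u p b ∈ X₀ :=
    ⟨(Set.finite_range (fun pb : PP × ((Fin n ⊕ Fin n) ⊕ Fin q) => u pb.1 pb.2)).toFinset,
      fun p b => (Set.Finite.mem_toFinset _).2 ⟨(p, b), rfl⟩⟩
  obtain ⟨e, heL, heT, heI⟩ := hInj X₀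
  obtain ⟨v, hv⟩ : ∃ v : (Fin n ⊕ Fin n) ⊕ Fin q → PP → V, v = fun b p => e (u p b) := ⟨_, rfl⟩
  -- constants
  obtain ⟨bs, hbs⟩ : ∃ bs : (Fin ρ.m → Prop) → V, ∀ s ∈ Rlz 𝔹, ty 𝔹 (bs s) = s := by
    have h : ∀ s : Fin ρ.m → Prop, ∃ x : V, s ∈ Rlz 𝔹 → ty 𝔹 x = s := by
      intro s
      by_cases hs : s ∈ Rlz 𝔹
      · obtain ⟨x, hx⟩ := hs
        exact ⟨x, fun _ => hx⟩
      · exact ⟨Classical.arbitrary V, fun h => absurd h hs⟩
    choose bs hbs using h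
    exact ⟨bs, hbs⟩
  have hfinT : Finite (Fin ρ.m → Prop) := inferInstance
  obtain ⟨U, hUv, hUw⟩ : ∃ U : Finset (PP → V), (∀ b, v b ∈ U) ∧
      ∀ s : Fin ρ.m → Prop, (fun _ : PP => bs s) ∈ U := by
    refine ⟨((Set.finite_range v).union (Set.finite_range
      (fun (s : Fin ρ.m → Prop) (_ : PP) => bs s))).toFinset, fun b => ?_, fun s => ?_⟩
    · exact (Set.Finite.mem_toFinset _).2 (Or.inl ⟨b, rfl⟩)
    · exact (Set.Finite.mem_toFinset _).2 (Or.inr ⟨s, rfl⟩)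
  obtain ⟨U', hUU, hF⟩ := hFin PP U
  -- the coordinates
  obtain ⟨k, ⟨ε⟩, hk⟩ : ∃ k : ℕ, Nonempty ((Fin n ⊕ (Fin ρ.m → Prop)) ≃ Fin k) ∧ 1 ≤ k := by
    refine ⟨Nat.card (Fin n ⊕ (Fin ρ.m → Prop)), ⟨Finite.equivFin _⟩, ?_⟩
    have : Nonempty (Fin n ⊕ (Fin ρ.m → Prop)) := ⟨Sum.inl ⟨0, hn⟩⟩
    exact Nat.one_le_iff_ne_zero.2 Nat.card_pos.ne'
  obtain ⟨xl, hxl⟩ : ∃ xl : Fin n ⊕ (Fin ρ.m → Prop) → PP → V,
      xl = Sum.elim (fun i => v (Sum.inl (Sum.inl i))) (fun s _ => bs s) := ⟨_, rfl⟩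
  obtain ⟨xr, hxr⟩ : ∃ xr : Fin n ⊕ (Fin ρ.m → Prop) → PP → V,
      xr = Sum.elim (fun i => v (Sum.inl (Sum.inr i))) (fun s _ => bs s) := ⟨_, rfl⟩
  have hl : ∀ j, xl j ∈ U' := by
    intro j
    rw [hxl]
    rcases j with i | s
    · exact hUU (hUv _)
    · exact hUU (hUw s)
  have hr : ∀ j, xr j ∈ U' := by
    intro j
    rw [hxr]
    rcases j with i | s
    · exact hUU (hUv _)
    · exact hUU (hUw s)
  -- the inverse maps
  obtain ⟨K, hKp⟩ : ∃ K : ((Fin ρ.m → Prop) → V) → V → V, ∀ r,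
      (∃ g : V → V, IsHom 𝔸 𝔸 g ∧ ∀ x, ∀ s ∈ Rlz 𝔹, ty 𝔹 x = ty 𝔹 (r s) → ty 𝔹 (g x) = s) →
      IsHom 𝔸 𝔸 (K r) ∧ ∀ x, ∀ s ∈ Rlz 𝔹, ty 𝔹 x = ty 𝔹 (r s) → ty 𝔹 (K r x) = s := by
    have h : ∀ r : (Fin ρ.m → Prop) → V, ∃ g' : V → V,
        (∃ g : V → V, IsHom 𝔸 𝔸 g ∧ ∀ x, ∀ s ∈ Rlz 𝔹, ty 𝔹 x = ty 𝔹 (r s) →
          ty 𝔹 (g x) = s) →
        IsHom 𝔸 𝔸 g' ∧ ∀ x, ∀ s ∈ Rlz 𝔹, ty 𝔹 x = ty 𝔹 (r s) → ty 𝔹 (g' x) = s := by
      intro r
      by_cases hr : ∃ g : V → V, IsHom 𝔸 𝔸 g ∧ ∀ x, ∀ s ∈ Rlz 𝔹, ty 𝔹 x = ty 𝔹 (r s) →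
          ty 𝔹 (g x) = s
      · obtain ⟨g, hg⟩ := hr
        exact ⟨g, fun _ => hg⟩
      · exact ⟨id, fun h => absurd h hr⟩
    choose K hK using h
    exact ⟨K, hK⟩
  refine ⟨k, fun X Y => ∃ F : (PP → V) → V, LocP 𝔸 U' F ∧ (∀ j, X (ε j) = F (xl j)) ∧
    ∀ j, Y (ε j) = F (xr j), hk, pp_loc 𝔸 U' ε xl xr hl hr, ?_, ?_⟩
  · refine ⟨fun a j => Sum.elim (fun i => e (t a i)) bs (ε.symm j), fun a b hab => ?_⟩
    refine ⟨fun z => z ⟨(a, b), hab⟩, fun l z _ hp => hp _, fun j => ?_, fun j => ?_⟩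
    · show Sum.elim (fun i => e (t a i)) bs (ε.symm (ε j)) = xl j ⟨(a, b), hab⟩
      rw [Equiv.symm_apply_apply, hxl, hv, hu]
      rcases j with i | s
      · rfl
      · rfl
    · show Sum.elim (fun i => e (t b i)) bs (ε.symm (ε j)) = xr j ⟨(a, b), hab⟩
      rw [Equiv.symm_apply_apply, hxr, hv, hu]
      rcases j with i | s
      · rfl
      · rfl
  · refine ⟨fun X => c (fun i => K (fun s => X (ε (Sum.inr s))) (X (ε (Sum.inl i)))), ?_⟩
    rintro X Y ⟨F, hFL, hX, hY⟩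
    obtain ⟨⟨γ, hγ, hγt⟩, -⟩ := hF F hFL
    -- the inverse map
    have hXr : (fun s => X (ε (Sum.inr s))) = fun s => F (fun _ => bs s) := by
      funext s
      rw [hX, hxl]
      rfl
    have hYr : (fun s => Y (ε (Sum.inr s))) = fun s => F (fun _ => bs s) := by
      funext s
      rw [hY, hxr]
      rfl
    have hws : ∀ s ∈ Rlz 𝔹, ty 𝔹 (F (fun _ => bs s)) = γ s := fun s hs =>
      hγt _ (hUw s) s fun _ => hbs s hs
    obtain ⟨hg1, hg2⟩ := hKp (fun s => F (fun _ => bs s)) (by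
      obtain ⟨g, hg, hg'⟩ := hInv γ hγ
      refine ⟨g, hg, fun x s hs hx => hg' x s hs ?_⟩
      rw [hx]
      exact hws s hs)
    obtain ⟨g, hgdef⟩ : ∃ g : V → V, g = K (fun s => F (fun _ => bs s)) := ⟨_, rfl⟩
    rw [← hgdef] at hg1 hg2
    have hgF : LocP 𝔸 U' (fun x => g (F x)) := fun l z hz hp => hg1 l _ (hFL l z hz hp)
    obtain ⟨-, hne⟩ := hF _ hgF
    -- the claim
    have hcl : E (fun i => g (F (v (Sum.inl (Sum.inl i)))))
        (fun i => g (F (v (Sum.inl (Sum.inr i))))) := by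
      refine (hφ (Sum.elim (fun i => g (F (v (Sum.inl (Sum.inl i)))))
        (fun i => g (F (v (Sum.inl (Sum.inr i))))))).2 ⟨fun i => g (F (v (Sum.inr i))), ?_⟩
      intro a ha
      have hfun : (Sum.elim (Sum.elim (fun i => g (F (v (Sum.inl (Sum.inl i)))))
          (fun i => g (F (v (Sum.inl (Sum.inr i)))))) (fun i => g (F (v (Sum.inr i)))) :
          (Fin n ⊕ Fin n) ⊕ Fin q → V) = fun b => g (F (v b)) := by
        funext b
        rcases b with (b | b) | b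
        · rfl
        · rfl
        · rfl
      rw [hfun]
      have hvt : ∀ b p, ty 𝔹 (v b p) = ty 𝔹 (u p b) := by
        intro b p
        rw [hv]
        exact heT _ (hX₀ p b)
      refine holds_map m (Bl 𝔸 𝔹) u (fun b => g (F (v b))) ?_ ?_ ?_ ?_ a
        (fun p => huφ p a ha)
      · intro b b' hb
        have : v b = v b' := by
          rw [hv]
          funext p
          show e (u p b) = e (u p b')
          rw [hb p]
        show g (F (v b)) = g (F (v b'))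
        rw [this]
      · intro b s hs
        obtain ⟨p0⟩ := (inferInstance : Nonempty PP)
        have hsR : s ∈ Rlz 𝔹 := ⟨u p0 b, hs p0⟩
        refine hg2 _ s hsR ?_
        rw [hws s hsR]
        exact hγt _ (hUv b) s fun p => (hvt b p).trans (hs p)
      · intro b b' s hs hsB
        refine hne (v b) (hUv b) (v b') (hUv b') s fun p => ?_
        obtain ⟨h1, h2, h3⟩ := hs p
        have h4 := heI (u p b) (hX₀ p b) (u p b') (hX₀ p b') (h1.trans h2.symm) (by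
          rw [h1]
          intro hC
          exact hsB (hN s ⟨u p b, h1⟩ hC)) h3
        refine ⟨(hvt b p).trans h1, (hvt b' p).trans h2, ?_, ?_⟩
        · rw [hv]
          exact h4.1
        · rw [hv]
          exact h4.2
      · intro l z hz
        refine hg1 l _ (hFL l _ (fun i => hUU (hUv _)) fun p => ?_)
        rw [hv]
        exact heL l (fun i => u p (z i)) (fun i => hX₀ p _) (hz p)
    have hXc : (fun i => K (fun s => X (ε (Sum.inr s))) (X (ε (Sum.inl i)))) =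
        fun i => g (F (v (Sum.inl (Sum.inl i)))) := by
      funext i
      rw [hXr, ← hgdef, hX, hxl]
      rfl
    have hYc : (fun i => K (fun s => Y (ε (Sum.inr s))) (Y (ε (Sum.inl i)))) =
        fun i => g (F (v (Sum.inl (Sum.inr i)))) := by
      funext i
      rw [hYr, ← hgdef, hY, hxr]
      rfl
    show c (fun i => K (fun s => X (ε (Sum.inr s))) (X (ε (Sum.inl i)))) ≠
      c (fun i => K (fun s => Y (ε (Sum.inr s))) (Y (ε (Sum.inl i))))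
    rw [hXc, hYc]
    exact hc _ _ hcl

end Pool.Agent.H35.FB
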