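import Pool.Agent.H44.FB.Basics

/-!
# The fibres, board `fbm_modules`, row RPT: from sets of pieces to complete types
-/

set_option autoImplicit false

namespace Pool.Agent.H35.FB

open Pool.Agent.H68.BP Pool.Agent.H58.SF Pool.Agent.H53.NR
open Pool.Agent.H53.GC (arP relP strOn sigOf)
open Pool.Agent.H53.GR (Ps Dm)
open Pool.Agent.H53.GM (Connected Avoids Val Cols DmG)
open Pool.Agent.H53.GX (FmX)
open Pool.Agent.H57.AR (tp ty Ty)
open Pool.Agent.H57.EQ (Cx)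
open Pool.Agent.H57.SO (fib sigF SF)
open Pool.Agent.H57.LH (SS vs c0 Blind NCB Cor Prs tfL SyL)
open Pool.Agent.H44.KR Pool.Agent.H44.FB
open Function Classical

section pieces

variable {τ : Sig} {W : Type}

/-- the piece with one atom of the colour `c` and the roots `β` -/
noncomputable def pcR (N : ℕ) (c : Fin τ.m) {j : ℕ} (β : Fin (j + 1) → Fin (τ.ar c)) :
    Str τ (Fin N) × (Fin N → Option (Fin (j + 1))) :=
  (fun c' w => c' = c ∧ ∀ i, (w i : ℕ) = (i : ℕ),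
    fun v => if h : ∃ i, (v : ℕ) = (β i : ℕ) then some h.choose else none)

theorem pcR_root {N : ℕ} {c : Fin τ.m} {j : ℕ} {β : Fin (j + 1) → Fin (τ.ar c)}
    (hβ : Injective β) {v : Fin N} {i : Fin (j + 1)} (h : (v : ℕ) = (β i : ℕ)) :
    (pcR N c β).2 v = some i := by
  have h' : ∃ i, (v : ℕ) = (β i : ℕ) := ⟨i, h⟩
  have h1 : (pcR N c β).2 v = some h'.choose := dif_pos h'
  rw [h1]
  congr 1
  apply hβ
  apply Fin.ext
  rw [← h'.choose_spec, h]

theorem pcR_root_inv {N : ℕ} {c : Fin τ.m} {j : ℕ} {β : Fin (j + 1) → Fin (τ.ar c)}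
    {v : Fin N} {i : Fin (j + 1)} (h : (pcR N c β).2 v = some i) : (v : ℕ) = (β i : ℕ) := by
  by_cases h' : ∃ i, (v : ℕ) = (β i : ℕ)
  · have h1 : (pcR N c β).2 v = some h'.choose := dif_pos h'
    rw [h1] at h
    have h2 : h'.choose = i := Option.some.inj h
    rw [← h2]
    exact h'.choose_spec
  · have h1 : (pcR N c β).2 v = none := dif_neg h'
    rw [h1] at h
    cases h

/-- the piece belongs to the type of a tuple if the tuple belongs to an atom -/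
theorem pcR_mem {N : ℕ} {c : Fin τ.m} (hN : τ.ar c ≤ N) {j : ℕ}
    {β : Fin (j + 1) → Fin (τ.ar c)} (hβ : Injective β) (M : Str τ W) (x : Fin (j + 1) → W) :
    pcR N c β ∈ Pool.Agent.H53.GM.tp N M x ↔
      ∃ y : Fin (τ.ar c) → W, M c y ∧ ∀ i, y (β i) = x i := by
  constructor
  · rintro ⟨-, f, hf, hr⟩
    refine ⟨fun v => f ⟨v, lt_of_lt_of_le v.2 hN⟩, ?_, fun i => ?_⟩
    · exact hf c (fun v => ⟨v, lt_of_lt_of_le v.2 hN⟩) ⟨rfl, fun i => rfl⟩
    · exact hr ⟨β i, lt_of_lt_of_le (β i).2 hN⟩ i (pcR_root hβ rfl)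
  · rintro ⟨y, hy, hyx⟩
    refine ⟨?_, fun v => if h : (v : ℕ) < τ.ar c then y ⟨v, h⟩ else y (β 0), ?_, ?_⟩
    · rintro S - ⟨l, z, ⟨hl, hz⟩, hzS⟩
      have hl' : l = c := hl
      subst hl'
      refine ⟨z (β 0), hzS _, ?_⟩
      rw [pcR_root hβ (i := 0) (hz (β 0))]
      simp
    · rintro l z ⟨hl, hz⟩
      have hl' : l = c := hl
      subst hl'
      have h1 : (fun i => if h : (z i : ℕ) < τ.ar l then y ⟨z i, h⟩ else y (β 0)) = y := by
        funext i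
        have h2 : (z i : ℕ) < τ.ar l := by
          rw [hz i]
          exact i.2
        rw [dif_pos h2]
        congr 1
        exact Fin.ext (hz i)
      show M l (fun i => if h : (z i : ℕ) < τ.ar l then y ⟨z i, h⟩ else y (β 0))
      rw [h1]
      exact hy
    · intro v i hv
      have h1 := pcR_root_inv hv
      have h2 : (v : ℕ) < τ.ar c := by
        rw [h1]
        exact (β i).2
      show (if h : (v : ℕ) < τ.ar c then y ⟨v, h⟩ else y (β 0)) = x i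
      rw [dif_pos h2, ← hyx i]
      congr 1
      exact Fin.ext h1

end pieces

section corr

variable {V W : Type} {ρ : Sig} {𝔹 : Str ρ V}

/-- new values at the places in `Bp` -/
theorem exists_corr [Finite W] (hB : HB 𝔹) (y : W → V) (Bp : Set W)
    (h : ∀ a b, y a = y b → a = b ∨ a ∈ Bp) :
    ∃ x : W → V, Injective x ∧ (∀ a, a ∉ Bp → x a = y a) ∧ ∀ a, ty 𝔹 (x a) = ty 𝔹 (y a) := by
  classical
  have := Fintype.ofFinite W
  have key : ∀ T : Finset W, ∃ x : W → V,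
      (∀ a b, x a = x b → a = b ∨ ((a ∈ Bp ∧ a ∉ T) ∧ (b ∈ Bp ∧ b ∉ T))) ∧
      (∀ a, a ∉ Bp → x a = y a) ∧ ∀ a, ty 𝔹 (x a) = ty 𝔹 (y a) := by
    intro T
    induction T using Finset.induction_on with
    | empty =>
      refine ⟨y, fun a b hab => ?_, fun _ _ => rfl, fun _ => rfl⟩
      rcases h a b hab with h1 | h1
      · exact Or.inl h1
      · rcases h b a hab.symm with h2 | h2
        · exact Or.inl h2.symm
        · exact Or.inr ⟨⟨h1, Finset.notMem_empty _⟩, ⟨h2, Finset.notMem_empty _⟩⟩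
    | insert a₀ T ha₀ ih =>
      obtain ⟨x, h1, h2, h3⟩ := ih
      by_cases hB0 : a₀ ∈ Bp
      · obtain ⟨x', hx1, -, hx3⟩ := hB.amg Unit ∅ (fun _ => x a₀) (fun _ => x a₀)
          (Finset.univ.image x) ⟨fun _ ha => absurd ha (Set.notMem_empty _),
            fun _ _ _ => Iff.rfl⟩
        have hv : x' () ∉ Finset.univ.image x := by
          intro hv
          obtain ⟨a, ha, -⟩ := hx3 () hv
          exact Set.notMem_empty _ ha
        have hvne : ∀ b, x' () ≠ x b := fun b hb =>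
          hv (hb ▸ Finset.mem_image_of_mem x (Finset.mem_univ b))
        have hty : ty 𝔹 (x' ()) = ty 𝔹 (x a₀) := ty_of_tp hx1 ()
        refine ⟨Function.update x a₀ (x' ()), fun a b hab => ?_, fun a ha => ?_, fun a => ?_⟩
        · by_cases h4 : a = a₀
          · by_cases h5 : b = a₀
            · exact Or.inl (h4.trans h5.symm)
            · rw [h4, Function.update_self, Function.update_of_ne h5] at hab
              exact absurd hab (hvne b)
          · by_cases h5 : b = a₀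
            · rw [h5, Function.update_self, Function.update_of_ne h4] at hab
              exact absurd hab.symm (hvne a)
            · rw [Function.update_of_ne h4, Function.update_of_ne h5] at hab
              rcases h1 a b hab with h6 | ⟨⟨h6, h7⟩, h8, h9⟩
              · exact Or.inl h6
              · refine Or.inr ⟨⟨h6, fun h => ?_⟩, h8, fun h => ?_⟩
                · rcases Finset.mem_insert.1 h with h | h
                  · exact h4 h
                  · exact h7 h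
                · rcases Finset.mem_insert.1 h with h | h
                  · exact h5 h
                  · exact h9 h
        · have h4 : a ≠ a₀ := fun h => ha (h ▸ hB0)
          rw [Function.update_of_ne h4]
          exact h2 a ha
        · by_cases h4 : a = a₀
          · rw [h4, Function.update_self, hty]
            exact h3 a₀
          · rw [Function.update_of_ne h4]
            exact h3 a
      · refine ⟨x, fun a b hab => ?_, h2, h3⟩
        rcases h1 a b hab with h6 | ⟨⟨h6, h7⟩, h8, h9⟩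
        · exact Or.inl h6
        · refine Or.inr ⟨⟨h6, fun h => ?_⟩, h8, fun h => ?_⟩
          · rcases Finset.mem_insert.1 h with h | h
            · exact hB0 (h ▸ h6)
            · exact h7 h
          · rcases Finset.mem_insert.1 h with h | h
            · exact hB0 (h ▸ h8)
            · exact h9 h
  obtain ⟨x, h1, h2, h3⟩ := key Finset.univ
  refine ⟨x, fun a b hab => ?_, h2, h3⟩
  rcases h1 a b hab with h6 | ⟨⟨-, h7⟩, -⟩
  · exact h6
  · exact absurd (Finset.mem_univ a) h7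

end corr

section main

variable {V : Type} {ρ σ : Sig}

/-- the value of the relation `l` at the places `w` of the colour `c` -/
def hol (𝔹 : Str ρ V) (σ : Sig) (m : ℕ) (B : Set (Fin ρ.m → Prop)) (c : Fin (sigC 𝔹 σ m).m)
    (l : Fin ρ.m) (w : Fin (ρ.ar l) → Fin ((sigC 𝔹 σ m).ar c)) : Prop :=
  ((∀ i, tyI 𝔹 σ m (co 𝔹 σ m c).1.1 (w i) ∉ B) ∧ (co 𝔹 σ m c).1.2 l w) ∨
    ∃ a, (∀ i, w i = a) ∧ tyI 𝔹 σ m (co 𝔹 σ m c).1.1 a ∈ B ∧
      tyI 𝔹 σ m (co 𝔹 σ m c).1.1 a l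

/-- the map from the types to the structures -/
noncomputable def RR (𝔹 : Str ρ V) (σ : Sig) (m N : ℕ) (hm1 : 1 ≤ m)
    (B : Set (Fin ρ.m → Prop)) : DmG (sigC 𝔹 σ m) N → Dm ρ m := fun d =>
  if h : (d.1 : ℕ) < m then
    ⟨⟨(d.1 : ℕ), h⟩, fun l z => ∃ (c : Fin (sigC 𝔹 σ m).m)
      (β : Fin ((d.1 : ℕ) + 1) → Fin ((sigC 𝔹 σ m).ar c)), Injective β ∧
      pcR N c β ∈ d.2 ∧ hol 𝔹 σ m B c l (fun i => β (z i))⟩
  else ⟨⟨0, hm1⟩, fun _ _ => False⟩

theorem RR_eq (𝔹 : Str ρ V) (σ : Sig) (m N : ℕ) (hm1 : 1 ≤ m) (hm : m ≤ N)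
    (B : Set (Fin ρ.m → Prop)) (j : Fin m)
    (P : Pool.Agent.H53.GM.Ty (sigC 𝔹 σ m) N (Fin ((j : ℕ) + 1))) :
    RR 𝔹 σ m N hm1 B ⟨⟨j, lt_of_lt_of_le j.2 hm⟩, P⟩ =
      ⟨j, fun l z => ∃ (c : Fin (sigC 𝔹 σ m).m)
      (β : Fin ((j : ℕ) + 1) → Fin ((sigC 𝔹 σ m).ar c)), Injective β ∧
      pcR N c β ∈ P ∧ hol 𝔹 σ m B c l (fun i => β (z i))⟩ := by
  exact dif_pos j.2

end main

theorem pf_RPT : T_RPT := by
  intro V σ ρ 𝔸 𝔹 hB m N hm1 hm hN F hfb hval
  refine ⟨RR 𝔹 σ m N hm1 (Bl 𝔸 𝔹), ?_⟩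
  rintro ⟨i₀, t⟩ Q ht ⟨W, hW, M, x, hV, hcol, -, hQ⟩
  obtain ⟨c₀, ⟨h1, x₁, hx₁, hx₁'⟩, har, hM⟩ := hcol
  subst h1
  have hM' : M c₀ x := hM
  have hne : Nonempty W := ⟨x ⟨0, (co 𝔹 σ m c₀).2⟩⟩
  obtain ⟨f, hf⟩ := (hval W M).1 hV
  have hNC : ∀ (c : Fin (sigC 𝔹 σ m).m) (y : Fin ((sigC 𝔹 σ m).ar c) → W), M c y →
      (∀ a, ty 𝔹 (f (y a)) = tyI 𝔹 σ m (co 𝔹 σ m c).1.1 a) ∧
      (∀ a b, f (y a) = f (y b) → a = b ∨ tyI 𝔹 σ m (co 𝔹 σ m c).1.1 a ∈ Bl 𝔸 𝔹) ∧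
      ∀ (l : Fin ρ.m) (z : Fin (ρ.ar l) → Fin ((sigF (SS 𝔹) σ m).ar (co 𝔹 σ m c).1.1)),
      (∀ i, tyI 𝔹 σ m (co 𝔹 σ m c).1.1 (z i) ∉ Bl 𝔸 𝔹) →
        (𝔹 l (fun i => f (y (z i))) ↔ (co 𝔹 σ m c).1.2 l z) := fun c y hy => hf c y hy
  obtain ⟨hn1, hn2, hn3⟩ := hNC c₀ x hM'
  -- the correction
  obtain ⟨x', hxi, hxe, hxt⟩ := exists_corr hB (fun a => f (x a))
    {a | tyI 𝔹 σ m (co 𝔹 σ m c₀).1.1 a ∈ Bl 𝔸 𝔹} hn2
  have hxt' : ∀ a, ty 𝔹 (x' a) = tyI 𝔹 σ m (co 𝔹 σ m c₀).1.1 a :=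
    fun a => (hxt a).trans (hn1 a)
  have hrel : ∀ (l : Fin ρ.m)
      (z : Fin (ρ.ar l) → Fin ((sigF (SS 𝔹) σ m).ar (co 𝔹 σ m c₀).1.1)),
      (∀ i, tyI 𝔹 σ m (co 𝔹 σ m c₀).1.1 (z i) ∉ Bl 𝔸 𝔹) →
        (𝔹 l (fun i => x' (z i)) ↔ (co 𝔹 σ m c₀).1.2 l z) := by
    intro l z hz
    rw [← hn3 l z hz]
    have h2 : (fun i => x' (z i)) = fun i => f (x (z i)) := funext fun i => hxe _ (hz i)
    rw [h2]
  have hx'NC : NC 𝔹 σ m (Bl 𝔸 𝔹) c₀ x' :=
    ⟨hxt', fun a b hab => Or.inl (hxi hab), hrel⟩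
  obtain ⟨-, -, -, hx'P⟩ := hfb c₀ x₁ x' hx₁ hx₁' hx'NC
  refine ⟨fun p => ⟨p.1, pull 𝔹 (fun i => x' (p.2 i))⟩,
    ⟨x', ⟨hxi, fun a => ?_, hx'P⟩, fun a b hab => congrArg x' (ht hab),
      fun j α _ => rfl⟩, ?_⟩
  · rw [Pool.Agent.H57.LH.c0_self]
    congr 1
    exact Subtype.ext (hxt' a)
  · intro j α hα
    have hQ' := hQ ⟨j, lt_of_lt_of_le j.2 hm⟩ α hα
    have hαi : Injective α := Injective.of_comp (f := t) hα.injective
    rw [hQ', RR_eq 𝔹 σ m N hm1 hm]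
    refine congrArg (Sigma.mk j) ?_
    funext l z
    refine propext ⟨fun hl => ?_, ?_⟩
    · have hl' : 𝔹 l (fun i => x' (α (z i))) := hl
      refine ⟨c₀, α, hαi, (pcR_mem (hN c₀) hαi M _).2 ⟨x, hM', fun i => rfl⟩, ?_⟩
      by_cases h : ∀ i, tyI 𝔹 σ m (co 𝔹 σ m c₀).1.1 (α (z i)) ∉ Bl 𝔸 𝔹
      · exact Or.inl ⟨h, (hrel l (fun i => α (z i)) h).1 hl'⟩
      · obtain ⟨i, hi⟩ := not_forall.1 h
        have hi' : Blind 𝔸 𝔹 (tyI 𝔹 σ m (co 𝔹 σ m c₀).1.1 (α (z i))) := not_not.1 hi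
        have h2 := hi'.b l _ hl' i (hxt' _)
        have h3 : ∀ k, α (z k) = α (z i) := fun k => hxi (h2 k)
        refine Or.inr ⟨α (z i), h3, not_not.1 hi, ?_⟩
        rw [← hxt' (α (z i))]
        have h4 : (fun k => x' (α (z k))) = fun _ => x' (α (z i)) := funext h2
        rw [h4] at hl'
        exact hl'
    · rintro ⟨c, β, hβ, hpc, hh⟩
      obtain ⟨y, hy, hyx⟩ := (pcR_mem (hN c) hβ M _).1 hpc
      obtain ⟨hc1, hc2, hc3⟩ := hNC c y hy
      have hte : ∀ i, tyI 𝔹 σ m (co 𝔹 σ m c).1.1 (β i) =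
          tyI 𝔹 σ m (co 𝔹 σ m c₀).1.1 (α i) := by
        intro i
        rw [← hc1 (β i), ← hn1 (α i), hyx i]
      show 𝔹 l (fun i => x' (α (z i)))
      rcases hh with ⟨h2, h3⟩ | ⟨a, h2, h3, h4⟩
      · have h5 := (hc3 l (fun i => β (z i)) h2).2 h3
        have h6 : (fun i => x' (α (z i))) = fun i => f (y (β (z i))) := by
          funext i
          rw [hyx (z i)]
          refine hxe _ fun hB' => h2 i ?_
          rw [hte (z i)]
          exact hB'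
        rw [h6]
        exact h5
      · have hi₁ : 0 < ρ.ar l := hB.ar l
        have h5 : ∀ i, z i = z ⟨0, hi₁⟩ := fun i => hβ ((h2 i).trans (h2 ⟨0, hi₁⟩).symm)
        have h6 : (fun i => x' (α (z i))) = fun _ => x' (α (z ⟨0, hi₁⟩)) := by
          funext i
          rw [h5 i]
        rw [h6]
        have h8 : β (z ⟨0, hi₁⟩) = a := h2 ⟨0, hi₁⟩
        have h7 : ty 𝔹 (x' (α (z ⟨0, hi₁⟩))) l := by
          rw [hxt', ← hte, h8]
          exact h4
        exact h7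

end Pool.Agent.H35.FB
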